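import Mathlib

set_option autoImplicit false

namespace Pool.Agent.H.MP_6441f0_al

theorem min_inv {V ι : Type*} [AddCommGroup V] [Module ℂ V] [FiniteDimensional ℂ V]
    (f : ι → V →ₗ[ℂ] V) (U : Submodule ℂ V) (hU : U ≠ ⊥) (hf : ∀ i, ∀ v ∈ U, f i v ∈ U) :
    ∃ W : Submodule ℂ V, W ≤ U ∧ W ≠ ⊥ ∧ (∀ i, ∀ v ∈ W, f i v ∈ W) ∧
      ∀ W' : Submodule ℂ V, W' ≤ W → (∀ i, ∀ v ∈ W', f i v ∈ W') → W' = ⊥ ∨ W' = W := by
  obtain ⟨W, ⟨h1, h2, h3⟩, hmin⟩ := WellFounded.has_min (wellFounded_lt (α := Submodule ℂ V))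
    {W : Submodule ℂ V | W ≤ U ∧ W ≠ ⊥ ∧ ∀ i, ∀ v ∈ W, f i v ∈ W} ⟨U, le_rfl, hU, hf⟩
  refine ⟨W, h1, h2, h3, fun W' hle hinv => ?_⟩
  by_cases h : W' = ⊥
  · exact Or.inl h
  · right
    by_contra hne
    exact hmin W' ⟨hle.trans h1, h, hinv⟩ (lt_of_le_of_ne hle hne)

theorem common_eig {V ι : Type*} [AddCommGroup V] [Module ℂ V] [FiniteDimensional ℂ V]
    [Nontrivial V] (f : ι → V →ₗ[ℂ] V) (hc : ∀ i j v, f i (f j v) = f j (f i v)) :
    ∃ v : V, v ≠ 0 ∧ ∀ i, ∃ c : ℂ, f i v = c • v := by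
  obtain ⟨W, -, h2, h3, hmin⟩ := min_inv f ⊤ top_ne_bot (fun _ _ _ => Submodule.mem_top)
  obtain ⟨v, hv, hv0⟩ := Submodule.exists_mem_ne_zero_of_ne_bot h2
  refine ⟨v, hv0, fun i => ?_⟩
  haveI : Nontrivial W := Submodule.nontrivial_iff_ne_bot.mpr h2
  obtain ⟨c, hc'⟩ := Module.End.exists_eigenvalue ((f i).restrict (h3 i))
  obtain ⟨w, hw⟩ := hc'.exists_hasEigenvector
  have hw1 : f i w = c • (w : V) := by
    have := congrArg Subtype.val hw.apply_eq_smul
    simpa using this
  let W' : Submodule ℂ V := W ⊓ LinearMap.ker (f i - c • LinearMap.id)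
  have hmem : ∀ x, x ∈ W' ↔ x ∈ W ∧ f i x = c • x := by
    intro x
    simp [W', sub_eq_zero]
  rcases hmin W' inf_le_left (fun j x hx => by
      rw [hmem] at hx ⊢
      exact ⟨h3 j x hx.1, by rw [hc, hx.2, map_smul]⟩) with h | h
  · exfalso
    have : (w : V) ∈ W' := (hmem _).mpr ⟨w.2, hw1⟩
    rw [h, Submodule.mem_bot] at this
    exact hw.2 (Subtype.ext this)
  · exact ⟨c, ((hmem v).mp (h ▸ hv)).2⟩

/-- irreducibility as in the frozen statement -/
def Irr {G V : Type*} [Group G] [AddCommGroup V] [Module ℂ V] (ρ : Representation ℂ G V) : Prop :=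
  ∀ W : Submodule ℂ V, (∀ g : G, ∀ v ∈ W, ρ g v ∈ W) → W = ⊥ ∨ W = ⊤

theorem span_orbit {G V : Type*} [Group G] [AddCommGroup V] [Module ℂ V]
    (ρ : Representation ℂ G V) (hρ : Irr ρ) (W : Submodule ℂ V) (v : V) (hv : v ≠ 0) (hvW : v ∈ W)
    (h : ∀ g : G, ∀ w ∈ W, ρ g w ∈ W) : W = ⊤ := by
  rcases hρ W h with h' | h'
  · rw [h', Submodule.mem_bot] at hvW
    exact absurd hvW hv
  · exact h'

theorem dim_eq {G V ι : Type*} [Group G] [AddCommGroup V] [Module ℂ V] [FiniteDimensional ℂ V]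
    [Nontrivial V] [Fintype ι] (ρ : Representation ℂ G V) (hρ : Irr ρ)
    (N D : Subgroup G) [hN : N.Normal] [hD : D.Normal] (π : G → ι) (hπ : Function.Surjective π)
    (hπN : ∀ g g', π g = π g' ↔ g⁻¹ * g' ∈ N)
    (hcomm : ∀ a ∈ N, ∀ b ∈ N, ρ (a * b) = ρ (b * a))
    (hD1 : (∃ d ∈ D, ρ d ≠ 1) ∨ N = ⊤)
    (hDc : ∀ g, g ∉ N → ∀ d ∈ D, ∃ n ∈ N, ρ d = ρ (g⁻¹ * n * g * n⁻¹)) :
    Module.finrank ℂ V = Fintype.card ι := by
  classical
  obtain ⟨v, hv, hev⟩ := common_eig (fun n : N => ρ n) (fun a b v => by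
    have := hcomm a a.2 b b.2
    rw [map_mul, map_mul] at this
    exact LinearMap.congr_fun this v)
  choose c hc using hev
  have hc1 : c 1 = 1 := by
    have := hc 1
    simp only [OneMemClass.coe_one, map_one, Module.End.one_apply] at this
    have h2 : (c 1 - 1) • v = 0 := by rw [sub_smul, ← this, one_smul, sub_self]
    exact sub_eq_zero.mp ((smul_eq_zero.mp h2).resolve_right hv)
  have hcm : ∀ a b, c (a * b) = c a * c b := by
    intro a b
    have := hc (a * b)
    simp only [Subgroup.coe_mul, map_mul, Module.End.mul_apply] at this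
    rw [hc b, map_smul, hc a, smul_smul] at this
    have h2 : (c (a * b) - c a * c b) • v = 0 := by rw [sub_smul, ← this, mul_comm, sub_self]
    exact sub_eq_zero.mp ((smul_eq_zero.mp h2).resolve_right hv)
  let lam : N →* ℂ := ⟨⟨c, hc1⟩, hcm⟩
  let cj : G → N →* N := fun g =>
    { toFun := fun n => ⟨g⁻¹ * n * g, hN.conj_mem' _ n.2 g⟩
      map_one' := by ext; simp
      map_mul' := by intro a b; ext; simp [mul_assoc] }
  let χ : G → N →* ℂ := fun g => lam.comp (cj g)
  have hχ : ∀ g (n : N), ρ n (ρ g v) = χ g n • ρ g v := by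
    intro g n
    have h1 : (n : G) * g = g * (g⁻¹ * n * g) := by group
    have h2 : ρ n (ρ g v) = ρ g (ρ (cj g n) v) := by
      rw [← Module.End.mul_apply, ← map_mul, h1, map_mul, Module.End.mul_apply]
      rfl
    rw [h2, hc, map_smul]
    rfl
  have hstab : ∀ g, χ g = χ 1 → g ∈ N := by
    intro g hg
    by_contra hgN
    rcases hD1 with ⟨d, hd, hd1⟩ | h
    · apply hd1
      have hfix : ∀ d ∈ D, ρ d v = v := by
        intro d hd
        obtain ⟨n, hn, e⟩ := hDc g hgN d hd
        have e1 : ρ (g⁻¹ * n * g * n⁻¹) v = c (cj g ⟨n, hn⟩ * (⟨n, hn⟩ : N)⁻¹) • v := hc (cj g ⟨n, hn⟩ * (⟨n, hn⟩ : N)⁻¹)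
        have e2 : c (cj g ⟨n, hn⟩) = c ⟨n, hn⟩ := by
          have := DFunLike.congr_fun hg ⟨n, hn⟩
          have e3 : cj 1 ⟨n, hn⟩ = ⟨n, hn⟩ := by ext; simp [cj]
          simp only [χ, MonoidHom.comp_apply, e3] at this
          exact this
        rw [e, e1, hcm, e2, ← hcm, mul_inv_cancel, hc1, one_smul]
      let W : Submodule ℂ V :=
        { carrier := {w | ∀ d ∈ D, ρ d w = w}
          add_mem' := fun {a b} ha hb d hd => by rw [map_add, ha d hd, hb d hd]
          zero_mem' := fun d _ => map_zero _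
          smul_mem' := fun r w hw d hd => by rw [map_smul, hw d hd] }
      have hW : W = ⊤ := span_orbit ρ hρ W v hv hfix (fun g w hw d hd => by
        have h1 : d * g = g * (g⁻¹ * d * g) := by group
        rw [← Module.End.mul_apply, ← map_mul, h1, map_mul, Module.End.mul_apply,
          hw _ (hD.conj_mem' _ hd g)])
      ext w
      have : w ∈ W := hW ▸ Submodule.mem_top
      exact this d hd
    · exact hgN (h ▸ Subgroup.mem_top g)
  choose r hr using hπ
  have hinj : Function.Injective (fun i => χ (r i)) := by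
    intro i j hij
    have : (r i)⁻¹ * r j ∈ N := by
      apply hstab
      ext n
      have := DFunLike.congr_fun hij (cj (r i)⁻¹ n)
      have e1 : cj (r i) (cj (r i)⁻¹ n) = cj 1 n := by ext; simp [cj, mul_assoc]
      have e2 : cj (r j) (cj (r i)⁻¹ n) = cj ((r i)⁻¹ * r j) n := by ext; simp [cj, mul_assoc]
      simp only [χ, MonoidHom.comp_apply, e1, e2] at this ⊢
      exact this.symm
    rw [← hr i, ← hr j]
    exact (hπN _ _).mpr this
  have hli := (linearIndependent_monoidHom N ℂ).comp _ hinj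
  have hne : ∀ g, ρ g v ≠ 0 := by
    intro g h
    apply hv
    have : ρ g⁻¹ (ρ g v) = v := by
      rw [← Module.End.mul_apply, ← map_mul, inv_mul_cancel, map_one, Module.End.one_apply]
    rw [← this, h, map_zero]
  have hind : LinearIndependent ℂ (fun i => ρ (r i) v) := by
    rw [Fintype.linearIndependent_iff] at hli ⊢
    intro a ha i
    obtain ⟨φ, hφ⟩ := Module.Projective.exists_dual_ne_zero ℂ (hne (r i))
    have := hli (fun j => a j * φ (ρ (r j) v)) (by
      ext n
      have h1 := congrArg (fun x => φ (ρ (n : G) x)) ha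
      simp only [map_sum, map_smul, hχ, map_zero, smul_eq_mul] at h1
      simp only [Function.comp_apply, Finset.sum_apply, Pi.smul_apply, smul_eq_mul, Pi.zero_apply]
      rw [← h1]
      exact Finset.sum_congr rfl (fun j _ => by ring)) i
    exact (mul_eq_zero.mp this).resolve_right hφ
  have hmemg : ∀ g, ρ g v ∈ Submodule.span ℂ (Set.range fun i => ρ (r i) v) := by
    intro g
    have h1 : (r (π g))⁻¹ * g ∈ N := (hπN _ _).mp (hr _)
    have h2 : g = r (π g) * ((r (π g))⁻¹ * g) := by group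
    have h3 : ρ g v = c ⟨_, h1⟩ • ρ (r (π g)) v := by
      conv_lhs => rw [h2, map_mul, Module.End.mul_apply]
      have := hc ⟨_, h1⟩
      simp only at this
      rw [this, map_smul]
    rw [h3]
    exact Submodule.smul_mem _ _ (Submodule.subset_span ⟨_, rfl⟩)
  have hspan : Submodule.span ℂ (Set.range fun i => ρ (r i) v) = ⊤ := by
    refine span_orbit ρ hρ _ v hv (by simpa using hmemg 1) (fun g w hw => ?_)
    induction hw using Submodule.span_induction with
    | mem x hx =>
      obtain ⟨i, rfl⟩ := hx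
      rw [← Module.End.mul_apply, ← map_mul]
      exact hmemg _
    | zero => simp
    | add x y _ _ hx hy => rw [map_add]; exact Submodule.add_mem _ hx hy
    | smul a x _ hx => rw [map_smul]; exact Submodule.smul_mem _ _ hx
  exact Module.finrank_eq_card_basis (Module.Basis.mk hind hspan.ge)

theorem exists_irr {G : Type} [Group G] [Finite G] (B D : Subgroup G) [hB : B.Normal]
    [hD : D.Normal] (d0 : G) (hd0 : d0 ∈ D) (hd0B : d0 ∉ B) :
    ∃ (V : Type) (_ : AddCommGroup V) (_ : Module ℂ V) (_ : FiniteDimensional ℂ V)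
      (ρ : Representation ℂ G V), Nontrivial V ∧ Irr ρ ∧ (∀ b ∈ B, ρ b = 1) ∧ ∃ d ∈ D, ρ d ≠ 1 := by
  classical
  haveI := Fintype.ofFinite G
  let R : Representation ℂ G (G → ℂ) :=
    { toFun := fun g => LinearMap.funLeft ℂ ℂ (fun x => x * g)
      map_one' := by ext φ x; simp
      map_mul' := by intro a b; ext φ x; simp [mul_assoc] }
  have hR : ∀ g φ x, R g φ x = φ (x * g) := fun _ _ _ => rfl
  let U : Submodule ℂ (G → ℂ) :=
    { carrier := {φ | (∀ b ∈ B, ∀ x, φ (b * x) = φ x) ∧ ∀ x, ∑ d : D, φ (d * x) = 0}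
      add_mem' := fun {a b} ha hb => ⟨fun c hc x => by simp [ha.1 c hc, hb.1 c hc],
        fun x => by simp [Finset.sum_add_distrib, ha.2 x, hb.2 x]⟩
      zero_mem' := ⟨fun _ _ _ => rfl, fun x => by simp⟩
      smul_mem' := fun r w hw => ⟨fun c hc x => by simp [hw.1 c hc],
        fun x => by simp [← Finset.mul_sum, hw.2 x]⟩ }
  have hU : U ≠ ⊥ := by
    let φ : G → ℂ := fun x => (if x ∈ B then 1 else 0) - (if d0 * x ∈ B then 1 else 0)
    have hφ : φ ∈ U := by
      refine ⟨fun b hb x => ?_, fun x => ?_⟩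
      · have e1 : b * x ∈ B ↔ x ∈ B := B.mul_mem_cancel_left hb
        have e2 : d0 * (b * x) ∈ B ↔ d0 * x ∈ B := by
          have : d0 * (b * x) = (d0 * b * d0⁻¹) * (d0 * x) := by group
          rw [this]
          exact B.mul_mem_cancel_left (hB.conj_mem _ hb _)
        simp only [φ, e1, e2]
      · simp only [φ, Finset.sum_sub_distrib, sub_eq_zero]
        refine (Fintype.sum_equiv (Equiv.mulLeft (⟨d0, hd0⟩ : D)) _ _ (fun d => ?_)).symm
        simp [mul_assoc]
    intro h
    rw [h, Submodule.mem_bot] at hφ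
    have := congrFun hφ 1
    simp [φ, hd0B] at this
  obtain ⟨W, h1, h2, h3, hmin⟩ := min_inv (fun g => R g) U hU (fun g φ hφ =>
    ⟨fun b hb x => by rw [hR, hR, mul_assoc, hφ.1 b hb], fun x => by
      simp only [hR, mul_assoc]
      exact hφ.2 _⟩)
  refine ⟨W, inferInstance, inferInstance, inferInstance, R.subrepresentation W h3,
    Submodule.nontrivial_iff_ne_bot.mpr h2, fun W' hW' => ?_, fun b hb => ?_, ?_⟩
  · rcases hmin (W'.map W.subtype) (Submodule.map_subtype_le _ _) (fun g φ hφ => by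
      obtain ⟨w, hw, rfl⟩ := hφ
      exact ⟨_, hW' g w hw, rfl⟩) with h | h
    · left
      apply Submodule.map_injective_of_injective W.injective_subtype
      rw [h, Submodule.map_bot]
    · right
      apply Submodule.map_injective_of_injective W.injective_subtype
      rw [h, Submodule.map_subtype_top]
  · ext w x
    have : x * b = (x * b * x⁻¹) * x := by group
    change (w : G → ℂ) (x * b) = (w : G → ℂ) x
    rw [this]
    exact (h1 w.2).1 _ (hB.conj_mem _ hb _) _
  · by_contra hcon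
    push Not at hcon
    apply h2
    rw [eq_bot_iff]
    intro w hw
    rw [Submodule.mem_bot]
    ext x
    have e := (h1 hw).2 x
    have e2 : ∀ d : D, w (d * x) = w x := by
      intro d
      have h4 := hcon (x⁻¹ * d * x) (hD.conj_mem' _ d.2 x)
      have h5 := congrFun (congrArg Subtype.val (LinearMap.congr_fun h4 ⟨w, hw⟩)) x
      change w (x * (x⁻¹ * d * x)) = w x at h5
      rw [← h5]
      congr 1
      group
    simp only [e2, Finset.sum_const, Finset.card_univ, nsmul_eq_mul, mul_eq_zero,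
      Nat.cast_eq_zero, Fintype.card_ne_zero, false_or] at e
    exact e

end Pool.Agent.H.MP_6441f0_al
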