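import Pool.Agent.H.MP_6441f0_al.A

set_option autoImplicit false

namespace Pool.Agent.H.MP_6441f0_al

@[ext]
structure Gp (F : Type) where
  t : F
  s : F
  u : F
  a4 : F
  a3 : F
  a2 : F
  a1 : F
  a0 : F

namespace Gp
variable {F : Type} [Field F]

instance : Mul (Gp F) := ⟨fun x y =>
  ⟨x.t + y.t, x.s + y.s, x.u + y.u - x.t * y.s,
   x.a4 + y.a4,
   x.a3 + (y.a3 + 4 * x.t * y.a4),
   x.a2 + (y.a2 + 3 * x.t * y.a3 + 6 * x.t ^ 2 * y.a4),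
   x.a1 + (y.a1 + 2 * x.t * y.a2 + 3 * x.t ^ 2 * y.a3 + 4 * x.t ^ 3 * y.a4
     + 3 * x.s * (y.a3 + 4 * x.t * y.a4) + 12 * x.u * y.a4),
   x.a0 + (y.a0 + x.t * y.a1 + x.t ^ 2 * y.a2 + x.t ^ 3 * y.a3 + x.t ^ 4 * y.a4
     + 2 * x.s * (y.a2 + 3 * x.t * y.a3 + 6 * x.t ^ 2 * y.a4)
     + 3 * x.u * (y.a3 + 4 * x.t * y.a4))⟩⟩

instance : One (Gp F) := ⟨⟨0, 0, 0, 0, 0, 0, 0, 0⟩⟩

instance : Inv (Gp F) := ⟨fun x =>
  (⟨-x.t, -x.s, -x.u - x.t * x.s, 0, 0, 0, 0, 0⟩ : Gp F) *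
    ⟨0, 0, 0, -x.a4, -x.a3, -x.a2, -x.a1, -x.a0⟩⟩

theorem mul_def (x y : Gp F) : x * y =
  ⟨x.t + y.t, x.s + y.s, x.u + y.u - x.t * y.s,
   x.a4 + y.a4,
   x.a3 + (y.a3 + 4 * x.t * y.a4),
   x.a2 + (y.a2 + 3 * x.t * y.a3 + 6 * x.t ^ 2 * y.a4),
   x.a1 + (y.a1 + 2 * x.t * y.a2 + 3 * x.t ^ 2 * y.a3 + 4 * x.t ^ 3 * y.a4
     + 3 * x.s * (y.a3 + 4 * x.t * y.a4) + 12 * x.u * y.a4),
   x.a0 + (y.a0 + x.t * y.a1 + x.t ^ 2 * y.a2 + x.t ^ 3 * y.a3 + x.t ^ 4 * y.a4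
     + 2 * x.s * (y.a2 + 3 * x.t * y.a3 + 6 * x.t ^ 2 * y.a4)
     + 3 * x.u * (y.a3 + 4 * x.t * y.a4))⟩ := rfl

theorem one_def : (1 : Gp F) = ⟨0, 0, 0, 0, 0, 0, 0, 0⟩ := rfl

theorem inv_def (x : Gp F) : x⁻¹ =
  (⟨-x.t, -x.s, -x.u - x.t * x.s, 0, 0, 0, 0, 0⟩ : Gp F) *
    ⟨0, 0, 0, -x.a4, -x.a3, -x.a2, -x.a1, -x.a0⟩ := rfl

instance : Group (Gp F) := Group.ofLeftAxioms
  (by intro a b c; simp only [mul_def]; ext <;> simp only <;> ring)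
  (by intro a; simp only [mul_def, one_def]; ext <;> simp only <;> ring)
  (by intro a; simp only [mul_def, one_def, inv_def]; ext <;> simp only <;> ring)

def eqv : Gp F ≃ (F × F × F × F × F × F × F × F) where
  toFun x := (x.t, x.s, x.u, x.a4, x.a3, x.a2, x.a1, x.a0)
  invFun y := ⟨y.1, y.2.1, y.2.2.1, y.2.2.2.1, y.2.2.2.2.1, y.2.2.2.2.2.1, y.2.2.2.2.2.2.1,
    y.2.2.2.2.2.2.2⟩
  left_inv _ := rfl
  right_inv _ := rfl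

def SA (F : Type) [Field F] : Subgroup (Gp F) where
  carrier := {x | x.t = 0 ∧ x.s = 0 ∧ x.u = 0}
  mul_mem' := fun {a b} ⟨h1, h2, h3⟩ ⟨k1, k2, k3⟩ => by simp [mul_def, *]
  one_mem' := by simp [one_def]
  inv_mem' := fun {a} ⟨h1, h2, h3⟩ => by simp [inv_def, mul_def, *]

def SB (F : Type) [Field F] : Subgroup (Gp F) where
  carrier := {x | x.t = 0 ∧ x.s = 0 ∧ x.u = 0 ∧ x.a4 = 0 ∧ x.a3 = 0 ∧ x.a2 = 0}
  mul_mem' := fun {a b} ⟨h1, h2, h3, h4, h5, h6⟩ ⟨k1, k2, k3, k4, k5, k6⟩ => by simp [mul_def, *]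
  one_mem' := by simp [one_def]
  inv_mem' := fun {a} ⟨h1, h2, h3, h4, h5, h6⟩ => by simp [inv_def, mul_def, *]

def SN (F : Type) [Field F] : Subgroup (Gp F) where
  carrier := {x | x.t = 0}
  mul_mem' := fun {a b} (h1 : a.t = 0) (k1 : b.t = 0) => by simp [mul_def, *]
  one_mem' := by simp [one_def]
  inv_mem' := fun {a} (h1 : a.t = 0) => by simp [inv_def, mul_def, *]

def SD (F : Type) [Field F] : Subgroup (Gp F) where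
  carrier := {x | x.t = 0 ∧ x.s = 0 ∧ x.a4 = 0}
  mul_mem' := fun {a b} ⟨h1, h2, h3⟩ ⟨k1, k2, k3⟩ => by simp [mul_def, *]
  one_mem' := by simp [one_def]
  inv_mem' := fun {a} ⟨h1, h2, h3⟩ => by simp [inv_def, mul_def, *]

theorem mA (x : Gp F) : x ∈ SA F ↔ x.t = 0 ∧ x.s = 0 ∧ x.u = 0 := Iff.rfl
theorem mB (x : Gp F) : x ∈ SB F ↔
  x.t = 0 ∧ x.s = 0 ∧ x.u = 0 ∧ x.a4 = 0 ∧ x.a3 = 0 ∧ x.a2 = 0 := Iff.rfl
theorem mN (x : Gp F) : x ∈ SN F ↔ x.t = 0 := Iff.rfl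
theorem mD (x : Gp F) : x ∈ SD F ↔ x.t = 0 ∧ x.s = 0 ∧ x.a4 = 0 := Iff.rfl

instance : (SA F).Normal := ⟨fun n ⟨h1, h2, h3⟩ g => by
  simp only [mA, mul_def, inv_def, h1, h2, h3]
  refine ⟨?_, ?_, ?_⟩ <;> ring⟩

instance : (SB F).Normal := ⟨fun n ⟨h1, h2, h3, h4, h5, h6⟩ g => by
  simp only [mB, mul_def, inv_def, h1, h2, h3, h4, h5, h6]
  refine ⟨?_, ?_, ?_, ?_, ?_, ?_⟩ <;> ring⟩

instance : (SN F).Normal := ⟨fun n (h1 : n.t = 0) g => by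
  simp only [mN, mul_def, inv_def, h1]
  ring⟩

instance : (SD F).Normal := ⟨fun n ⟨h1, h2, h3⟩ g => by
  simp only [mD, mul_def, inv_def, h1, h2, h3]
  refine ⟨?_, ?_, ?_⟩ <;> ring⟩

theorem commA (a : Gp F) (ha : a ∈ SA F) (b : Gp F) (hb : b ∈ SA F) : a * b = b * a := by
  obtain ⟨h1, h2, h3⟩ := ha
  obtain ⟨k1, k2, k3⟩ := hb
  simp only [mul_def, h1, h2, h3, k1, k2, k3]
  ext <;> simp only <;> ring

theorem commN (a : Gp F) (ha : a ∈ SN F) (b : Gp F) (hb : b ∈ SN F) :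
    (b * a)⁻¹ * (a * b) ∈ SB F := by
  rw [mN] at ha hb
  simp only [mB, mul_def, inv_def, ha, hb]
  refine ⟨?_, ?_, ?_, ?_, ?_, ?_⟩ <;> ring

theorem commG (a b : Gp F) : (b * a)⁻¹ * (a * b) ∈ SD F := by
  simp only [mD, mul_def, inv_def]
  refine ⟨?_, ?_, ?_⟩ <;> ring

theorem keyA (h2 : (2 : F) ≠ 0) (h3 : (3 : F) ≠ 0) (g : Gp F) (hg : g ∉ SA F) (d : Gp F)
    (hd : d ∈ SB F) : ∃ n ∈ SA F, d = g⁻¹ * n * g * n⁻¹ := by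
  have h4 : (12 : F) ≠ 0 := by
    have : (12 : F) = 2 * 2 * 3 := by norm_num
    rw [this]
    exact mul_ne_zero (mul_ne_zero h2 h2) h3
  obtain ⟨t, s, u, a4, a3, a2, a1, a0⟩ := g
  obtain ⟨t', s', u', b4, b3, b2, b1, b0⟩ := d
  simp only [mB] at hd
  obtain ⟨rfl, rfl, rfl, rfl, rfl, rfl⟩ := hd
  simp only [mA] at hg
  by_cases ht : t = 0
  · subst ht
    by_cases hs : s = 0
    · subst hs
      have hu : u ≠ 0 := fun h => hg ⟨rfl, rfl, h⟩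
      refine ⟨⟨0, 0, 0, -b1 / (12 * u), -b0 / (3 * u), 0, 0, 0⟩, ⟨rfl, rfl, rfl⟩, ?_⟩
      simp only [mul_def, inv_def]
      ext <;> simp only <;> field_simp <;> ring
    · refine ⟨⟨0, 0, 0, 0, -b1 / (3 * s), (-b0 + u * b1 / s) / (2 * s), 0, 0⟩, ⟨rfl, rfl, rfl⟩, ?_⟩
      simp only [mul_def, inv_def]
      ext <;> simp only <;> field_simp <;> ring
  · refine ⟨⟨0, 0, 0, 0, 0, -b1 / (2 * t), (-b0 - (t ^ 2 - 2 * s) * b1 / (2 * t)) / t, 0⟩,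
      ⟨rfl, rfl, rfl⟩, ?_⟩
    simp only [mul_def, inv_def]
    ext <;> simp only <;> field_simp <;> ring

theorem keyN (h2 : (2 : F) ≠ 0) (h3 : (3 : F) ≠ 0) (g : Gp F) (hg : g ∉ SN F) (d : Gp F)
    (hd : d ∈ SD F) : ∃ n ∈ SN F, (g⁻¹ * n * g * n⁻¹)⁻¹ * d ∈ SB F := by
  have h4 : (4 : F) ≠ 0 := by
    have : (4 : F) = 2 * 2 := by norm_num
    rw [this]
    exact mul_ne_zero h2 h2
  obtain ⟨t, s, u, a4, a3, a2, a1, a0⟩ := g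
  obtain ⟨t', s', u', b4, b3, b2, b1, b0⟩ := d
  simp only [mD] at hd
  obtain ⟨rfl, rfl, rfl⟩ := hd
  simp only [mN] at hg
  refine ⟨⟨0, u' / t, 0, -b3 / (4 * t), (-b2 - 6 * t * b3 / 4) / (3 * t), 0, 0, 0⟩, rfl, ?_⟩
  simp only [mB, mul_def, inv_def]
  refine ⟨?_, ?_, ?_, ?_, ?_, ?_⟩ <;> field_simp <;> ring

end Gp
end Pool.Agent.H.MP_6441f0_al
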