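import Pool.Agent.H.MP_6441f0_al.B

set_option autoImplicit false

namespace Pool.Agent.H.MP_6441f0_al
open Gp

section
variable {F : Type} [Field F] [Fintype F] {V : Type*} [AddCommGroup V] [Module ℂ V]
  [FiniteDimensional ℂ V] [Nontrivial V]

theorem dimA (h2 : (2 : F) ≠ 0) (h3 : (3 : F) ≠ 0) (ρ : Representation ℂ (Gp F) V) (hρ : Irr ρ)
    (hB : ∃ d ∈ SB F, ρ d ≠ 1) : Module.finrank ℂ V = Fintype.card F ^ 3 := by
  have := dim_eq ρ hρ (SA F) (SB F) (fun g => (g.t, g.s, g.u))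
    (fun y => ⟨⟨y.1, y.2.1, y.2.2, 0, 0, 0, 0, 0⟩, rfl⟩)
    (fun g g' => by
      simp only [mA, mul_def, inv_def, Prod.mk.injEq]
      constructor
      · rintro ⟨e1, e2, e3⟩
        rw [e1, e2, e3]
        refine ⟨?_, ?_, ?_⟩ <;> ring
      · rintro ⟨e1, e2, e3⟩
        have f1 : g.t = g'.t := by linear_combination -e1
        have f2 : g.s = g'.s := by linear_combination -e2
        refine ⟨f1, f2, ?_⟩
        rw [← f2] at e3
        linear_combination -e3)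
    (fun a ha b hb => by rw [commA a ha b hb]) (Or.inl hB)
    (fun g hg d hd => by
      obtain ⟨n, hn, e⟩ := keyA h2 h3 g hg d hd
      exact ⟨n, hn, by rw [← e]⟩)
  rw [this]
  simp only [Fintype.card_prod]
  ring

omit [Fintype F] [FiniteDimensional ℂ V] [Nontrivial V] in
theorem eq_of_triv (ρ : Representation ℂ (Gp F) V) (B : Subgroup (Gp F)) (hB : ∀ b ∈ B, ρ b = 1)
    (x y : Gp F) (h : x⁻¹ * y ∈ B) : ρ y = ρ x := by
  have : y = x * (x⁻¹ * y) := by group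
  rw [this, map_mul, hB _ h, mul_one]

theorem dimN (h2 : (2 : F) ≠ 0) (h3 : (3 : F) ≠ 0) (ρ : Representation ℂ (Gp F) V) (hρ : Irr ρ)
    (hB : ∀ b ∈ SB F, ρ b = 1) (hD : ∃ d ∈ SD F, ρ d ≠ 1) :
    Module.finrank ℂ V = Fintype.card F :=
  dim_eq ρ hρ (SN F) (SD F) (fun g => g.t)
    (fun y => ⟨⟨y, 0, 0, 0, 0, 0, 0, 0⟩, rfl⟩)
    (fun g g' => by
      simp only [mN, mul_def, inv_def]
      constructor
      · intro e1
        rw [e1]
        ring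
      · intro e1
        linear_combination -e1)
    (fun a ha b hb => eq_of_triv ρ _ hB _ _ (commN a ha b hb)) (Or.inl hD)
    (fun g hg d hd => by
      obtain ⟨n, hn, e⟩ := keyN h2 h3 g hg d hd
      exact ⟨n, hn, eq_of_triv ρ _ hB _ _ e⟩)

omit [Fintype F] in
theorem dimT (ρ : Representation ℂ (Gp F) V) (hρ : Irr ρ)
    (hD : ∀ b ∈ SD F, ρ b = 1) : Module.finrank ℂ V = 1 :=
  dim_eq ρ hρ ⊤ ⊤ (fun _ => ()) (fun _ => ⟨1, rfl⟩) (fun _ _ => by simp)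
    (fun a _ b _ => eq_of_triv ρ _ hD _ _ (commG a b)) (Or.inr rfl)
    (fun g hg => absurd (Subgroup.mem_top g) hg)

end

theorem degs {F : Type} [Field F] [Fintype F] (h2 : (2 : F) ≠ 0) (h3 : (3 : F) ≠ 0) :
    {n : ℕ | ∃ (V : Type) (_ : AddCommGroup V) (_ : Module ℂ V)
      (_ : FiniteDimensional ℂ V) (ρ : Representation ℂ (Gp F) V),
      Nontrivial V ∧
      (∀ W : Submodule ℂ V, (∀ g : Gp F, ∀ v ∈ W, ρ g v ∈ W) → W = ⊥ ∨ W = ⊤) ∧
      Module.finrank ℂ V = n} = {1, Fintype.card F, Fintype.card F ^ 3} := by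
  haveI : Finite (Gp F) := Finite.of_equiv _ eqv.symm
  ext n
  simp only [Set.mem_setOf_eq, Set.mem_insert_iff, Set.mem_singleton_iff]
  constructor
  · rintro ⟨V, _, _, _, ρ, _, hρ, rfl⟩
    by_cases hB : ∃ d ∈ SB F, ρ d ≠ 1
    · exact Or.inr (Or.inr (dimA h2 h3 ρ hρ hB))
    · push Not at hB
      by_cases hD : ∃ d ∈ SD F, ρ d ≠ 1
      · exact Or.inr (Or.inl (dimN h2 h3 ρ hρ hB hD))
      · push Not at hD
        exact Or.inl (dimT ρ hρ hD)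
  · rintro (rfl | rfl | rfl)
    · obtain ⟨V, i1, i2, i3, ρ, i4, hρ, hB, -⟩ := exists_irr (SD F) ⊤ ⟨1, 0, 0, 0, 0, 0, 0, 0⟩
        (Subgroup.mem_top _) (by simp [mD])
      exact ⟨V, i1, i2, i3, ρ, i4, hρ, dimT ρ hρ hB⟩
    · obtain ⟨V, i1, i2, i3, ρ, i4, hρ, hB, hD⟩ := exists_irr (SB F) (SD F)
        ⟨0, 0, 1, 0, 0, 0, 0, 0⟩ (by simp [mD]) (by simp [mB])
      exact ⟨V, i1, i2, i3, ρ, i4, hρ, dimN h2 h3 ρ hρ hB hD⟩
    · obtain ⟨V, i1, i2, i3, ρ, i4, hρ, -, hD⟩ := exists_irr ⊥ (SB F)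
        ⟨0, 0, 0, 0, 0, 0, 0, 1⟩ (by simp [mB]) (by simp [one_def])
      exact ⟨V, i1, i2, i3, ρ, i4, hρ, dimA h2 h3 ρ hρ hD⟩

open scoped commutatorElement in
theorem not_metab {F : Type} [Field F] (h2 : (2 : F) ≠ 0) (h3 : (3 : F) ≠ 0) :
    derivedSeries (Gp F) 2 ≠ ⊥ := by
  intro h
  let x : Gp F := ⟨1, 0, 0, 0, 0, 0, 0, 0⟩
  let y : Gp F := ⟨0, 1, 0, 0, 0, 0, 0, 0⟩
  let a : Gp F := ⟨0, 0, 0, 1, 0, 0, 0, 0⟩
  have h1 : ∀ u v : Gp F, ⁅u, v⁆ ∈ derivedSeries (Gp F) 1 := fun u v =>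
    Subgroup.commutator_mem_commutator (Subgroup.mem_top u) (Subgroup.mem_top v)
  have h4 : ⁅⁅x, y⁆, ⁅x, a⁆⁆ ∈ derivedSeries (Gp F) 2 :=
    Subgroup.commutator_mem_commutator (h1 x y) (h1 x a)
  rw [h, Subgroup.mem_bot] at h4
  have h5 := congrArg Gp.a0 h4
  simp only [commutatorElement_def, mul_def, inv_def, one_def, x, y, a] at h5
  have : (2 : F) * 2 * 3 = 0 := by linear_combination -h5
  exact mul_ne_zero (mul_ne_zero h2 h2) h3 this

end Pool.Agent.H.MP_6441f0_al
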